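import Pool.Agent.Helper73.F2.St
import Pool.Agent.Helper95.SC.K33

/-!
# F2 module CF4: the 4-cycle is not strongly `k`-colourable for `k < 4`
-/

set_option autoImplicit false

namespace Pool.Agent.Helper94.F2

open _root_.F2 Finset

/-- blocks for `k = 2` -/
def b2 : Fin 4 ⊕ Fin 0 → Fin 2
  | Sum.inl i => if i = 0 ∨ i = 2 then 0 else 1
  | Sum.inr i => i.elim0

/-- blocks for `k = 3` -/
def b3 : Fin 4 ⊕ Fin 2 → Fin 2
  | Sum.inl i => if i = 0 ∨ i = 2 then 0 else 1
  | Sum.inr i => i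

theorem adj4 (i j : Fin 4) (h : i - j = 1 ∨ j - i = 1) : (SimpleGraph.cycleGraph 4).Adj i j :=
  SimpleGraph.cycleGraph_adj.2 h

theorem hCF4 : StCF4 := by
  intro k hk hk4 h
  unfold SC.StronglyColourable at h
  rw [Fintype.card_fin] at h
  interval_cases k
  · have hr : 1 * ((4 + 1 - 1) / 1) - 4 = 0 := by decide
    rw [hr] at h
    obtain ⟨c, h1, _⟩ := h ⊥ (by
      intro w
      have : {x | (⊥ : Setoid (Fin 4 ⊕ Fin 0)) x w} = {w} := by
        ext x
        simp
      rw [this]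
      simp)
    exact h1 _ _ ((SC.pad_adj_inl (SimpleGraph.cycleGraph 4) 0 _ _).2 (adj4 0 1 (by decide)))
      (Subsingleton.elim _ _)
  · have hr : 2 * ((4 + 2 - 1) / 2) - 4 = 0 := by decide
    rw [hr] at h
    obtain ⟨c, h1, h2⟩ := SC.strongOn_fun h b2 (by decide)
    have a1 : c (Sum.inl 0) ≠ c (Sum.inl 2) := by
      intro h
      have := h2 _ _ (by decide) h
      revert this
      decide
    have a2 := h1 _ _ ((SC.pad_adj_inl (SimpleGraph.cycleGraph 4) 0 _ _).2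
      (adj4 0 1 (by decide)))
    have a3 := h1 _ _ ((SC.pad_adj_inl (SimpleGraph.cycleGraph 4) 0 _ _).2
      (adj4 2 1 (by decide)))
    have : ∀ x y z : Fin 2, x ≠ y → x ≠ z → y ≠ z → False := by decide
    exact this _ _ _ a1 a2 a3
  · have hr : 3 * ((4 + 3 - 1) / 3) - 4 = 2 := by decide
    rw [hr] at h
    obtain ⟨c, h1, h2⟩ := SC.strongOn_fun h b3 (by decide)
    have a1 : c (Sum.inl 0) ≠ c (Sum.inl 2) := by
      intro h
      have := h2 _ _ (by decide) h
      revert this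
      decide
    have a1' : c (Sum.inl 1) ≠ c (Sum.inl 3) := by
      intro h
      have := h2 _ _ (by decide) h
      revert this
      decide
    have a2 := h1 _ _ ((SC.pad_adj_inl (SimpleGraph.cycleGraph 4) 2 _ _).2
      (adj4 0 1 (by decide)))
    have a3 := h1 _ _ ((SC.pad_adj_inl (SimpleGraph.cycleGraph 4) 2 _ _).2
      (adj4 0 3 (by decide)))
    have a4 := h1 _ _ ((SC.pad_adj_inl (SimpleGraph.cycleGraph 4) 2 _ _).2
      (adj4 2 1 (by decide)))
    have a5 := h1 _ _ ((SC.pad_adj_inl (SimpleGraph.cycleGraph 4) 2 _ _).2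
      (adj4 2 3 (by decide)))
    have : ∀ x y z t : Fin 3, ¬ (x ≠ y ∧ z ≠ t ∧ x ≠ z ∧ x ≠ t ∧ y ≠ z ∧ y ≠ t) := by decide
    exact this _ _ _ _ ⟨a1, a1', a2, a3, a4, a5⟩

end Pool.Agent.Helper94.F2
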